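import Pool.Agent.H91.TC.Basic
import Pool.Agent.H88.CM.Cha

/-! (CVT) convergence in the `C²` topology and closeness on a test. -/

set_option autoImplicit false

open Set Function Topology Metric Filter
open scoped Manifold

namespace Pool.Agent.H91.TC

open Pool.Agent.H88.CL Pool.Agent.H88.CM

theorem nt0 {G : Type} [SeminormedAddCommGroup G] {ι : Type} {l : Filter ι} {A B : ι → G}
    {p : G} (h3 : Tendsto A l (𝓝 p)) (h4 : Tendsto B l (𝓝 p)) :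
    Tendsto (fun i => ‖A i - B i‖) l (𝓝 0) := by
  have h5 := (h3.sub h4).norm
  rwa [sub_self, norm_zero] at h5

theorem nt {n : ℕ} {ι : Type} {l : Filter ι} {A B : ι → (E n →L[ℝ] E n →L[ℝ] E n)}
    {p : E n →L[ℝ] E n →L[ℝ] E n} (h3 : Tendsto A l (𝓝 p)) (h4 : Tendsto B l (𝓝 p)) :
    Tendsto (fun i => ‖A i - B i‖) l (𝓝 0) :=
  @nt0 (E n →L[ℝ] E n →L[ℝ] E n) _ ι l A B p h3 h4

theorem cvt : T_CVT := by
  intro n M _ _ _ _ g f hf hg φ ψ K hT η hη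
  set P : ℕ → M → Prop := fun i y => g i y ∈ ψ.source ∧ ‖ψ (g i y) - ψ (f y)‖ ≤ η ∧
    ‖fderiv ℝ (rep φ ψ (g i)) (φ y) - fderiv ℝ (rep φ ψ f) (φ y)‖ ≤ η ∧
    ‖fderiv ℝ (fderiv ℝ (rep φ ψ (g i))) (φ y) - fderiv ℝ (fderiv ℝ (rep φ ψ f)) (φ y)‖ ≤ η
    with hP
  have key : ∀ y ∈ K, ∀ᶠ p : ℕ × M in atTop ×ˢ 𝓝 y, P p.1 p.2 := by
    intro y hy
    have hys : y ∈ φ.source := hT.s hy
    have hfy : f y ∈ ψ.source := hT.t y hy
    have h1 : ∀ᶠ p : ℕ × M in atTop ×ˢ 𝓝 y, g p.1 p.2 ∈ ψ.source :=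
      (hg.c0 y).eventually (ψ.open_source.mem_nhds hfy)
    have h2 : ∀ᶠ p : ℕ × M in atTop ×ˢ 𝓝 y, p.2 ∈ φ.source :=
      tendsto_snd.eventually (φ.open_source.mem_nhds hys)
    have hφ : Tendsto (fun p : ℕ × M => (p.1, φ p.2)) (atTop ×ˢ 𝓝 y) (atTop ×ˢ 𝓝 (φ y)) :=
      tendsto_fst.prodMk ((φ.continuousAt hys).tendsto.comp tendsto_snd)
    have h3 : Tendsto (fun p : ℕ × M => jet (rep φ ψ (g p.1)) (φ p.2)) (atTop ×ˢ 𝓝 y)
        (𝓝 (jet (rep φ ψ f) (φ y))) := (hg.c2 y φ ψ hT.a hT.b hys hfy).comp hφ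
    have hct : ContDiffAt ℝ 2 (rep φ ψ f) (φ y) :=
      rep_contDiffAt hT.a hT.b hf (φ.map_source hys) (by rwa [φ.left_inv hys])
    have h4 : Tendsto (fun p : ℕ × M => jet (rep φ ψ f) (φ p.2)) (atTop ×ˢ 𝓝 y)
        (𝓝 (jet (rep φ ψ f) (φ y))) :=
      (jet_continuousAt hct).tendsto.comp ((φ.continuousAt hys).tendsto.comp tendsto_snd)
    have c1 : Continuous (fun A : J n => A.1) := continuous_fst
    have c2 : Continuous (fun A : J n => A.2.1) := continuous_fst.comp continuous_snd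
    have c3 : Continuous (fun A : J n => A.2.2) := continuous_snd.comp continuous_snd
    have s1 := nt0 ((c1.tendsto _).comp h3) ((c1.tendsto _).comp h4)
    have s2 := nt0 ((c2.tendsto _).comp h3) ((c2.tendsto _).comp h4)
    have s3 := nt ((c3.tendsto _).comp h3) ((c3.tendsto _).comp h4)
    filter_upwards [h1, h2, s1.eventually (gt_mem_nhds hη), s2.eventually (gt_mem_nhds hη),
      s3.eventually (gt_mem_nhds hη)] with p hp1 hp2 k1 k2 k3
    have hp4 : ‖ψ (g p.1 (φ.symm (φ p.2))) - ψ (f (φ.symm (φ p.2)))‖ ≤ η := k1.le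
    rw [φ.left_inv hp2] at hp4
    exact ⟨hp1, hp4, k2.le, k3.le⟩
  have hall : ∀ᶠ i in atTop, ∀ y ∈ K, P i y := by
    refine hT.c.induction_on (p := fun s => ∀ᶠ i in atTop, ∀ y ∈ s, P i y) (by simp)
      (fun s t hst h => h.mono fun i hi y hy => hi y (hst hy))
      (fun s t hs ht => (hs.and ht).mono fun i hi y hy => hy.elim (hi.1 y) (hi.2 y))
      (fun y hy => ?_)
    obtain ⟨pa, ha, pb, hb, hab⟩ := eventually_prod_iff.1 (key y hy)
    exact ⟨{z | pb z}, mem_nhdsWithin_of_mem_nhds hb, ha.mono fun i hi z hz => hab hi hz⟩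
  filter_upwards [hall] with i hi
  refine ⟨fun y hy => (hi y hy).1, fun y hy => (hi y hy).2.1, ?_, ?_⟩
  · rintro _ ⟨y, hy, rfl⟩
    exact (hi y hy).2.2.1
  · rintro _ ⟨y, hy, rfl⟩
    exact (hi y hy).2.2.2

end Pool.Agent.H91.TC
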