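import Pool.Agent.H91.TC.Good2
import Pool.Agent.H91.TC.Main

/-! (MAIN2) the closing lemma for diffeomorphisms with a torus symmetry, for points nonwandering
modulo the action. -/

set_option autoImplicit false

open Set Function Topology Metric Filter
open scoped Manifold

namespace Pool.Agent.H91.TC

open Pool.Agent.H88.CL Pool.Agent.H88.CM

theorem pf_MAIN2 (hTUA : T_TUA) (hTUB : T_TUB) (hGOOD : T_GOOD2) (hPER : T_PER) (hFAS : T_FAS)
    (hCLA : T_CLA) (hINV : T_INV) (hBMD : T_BMD) (hOBP : T_OBP) : T_MAIN2 := by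
  intro n k M _ _ _ _ _ a f f' x hA hf hk hc hlat hstab hcase nt φ ψ Q hT η hη
  obtain ⟨d, κ, e, r0, hn, hκ, hxκ, hex, hr0, htgt, hact⟩ := hTUA n k M a x hA hstab
  obtain ⟨r, hTube⟩ := hTUB n d k M a x hA hlat hstab κ e r0 hκ hxκ hex hr0 htgt hact
  obtain ⟨ρ', hρ'0, hρ'⟩ := Metric.isOpen_iff.1 κ.open_target (κ x) (κ.map_source hxκ)
  set ρ0 : ℝ := ρ' / 2 with hρ0d
  have hρ0 : 0 < ρ0 := by rw [hρ0d]; linarith
  have hball : closedBall (κ x) ρ0 ⊆ κ.target :=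
    (closedBall_subset_ball (by rw [hρ0d]; linarith)).trans hρ'
  choose t1 ht1 ht12 hcla using fun i => hCLA n k M a f f' κ (closedBall (κ x) ρ0) hA hf hκ
    (isCompact_closedBall _ _) hball (φ i) (ψ i) (Q i) (hT i) η hη
  obtain ⟨t2, ht2, ht2k⟩ := fin_min t1 ht1
  set t : ℝ := min t2 (1 / 2) with ht
  have ht0 : 0 < t := lt_min ht2 (by norm_num)
  have hthalf : t ≤ 1 / 2 := min_le_right _ _
  have htk : ∀ i, t ≤ t1 i := fun i => (min_le_left _ _).trans (ht2k i)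
  have hmono : ∀ (i : Fin nt) (u : E n → E n), Bp n (closedBall (κ x) ρ0) t t t u →
      Bp n (closedBall (κ x) ρ0) (t1 i) (t1 i) (t1 i) u := fun i u hu =>
    hu.mono subset_rfl (htk i) (htk i) (htk i)
  by_cases hper : ∃ (m : ℕ) (v : E k), 1 ≤ m ∧ f^[m] x = a v x
  · obtain ⟨V, hV, hVz⟩ := hlat
    obtain ⟨w, m, hw, hm, hret⟩ := hPER n k M a x f hA (fun z hz => hVz x (mem_of_mem_nhds hV) z hz)
      hc hper t ht0
    refine ⟨a w ∘ f, f' ∘ a (-w), m, (hA.DM w).comp hf, hm, hret, fun i => ?_⟩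
    have h0 := Bp_zero (closedBall (κ x) ρ0) (ht1 i).le
    have h1 := hcla i w _ _ _ (hw.trans (htk i)) h0 h0 h0
    rw [bmp_zero] at h1
    exact h1
  · have hnp : ∀ (m : ℕ) (v : E k), 1 ≤ m → f^[m] x ≠ a v x := fun m v hm h =>
      hper ⟨m, v, hm, h⟩
    have hcase' : (d < k ∧ NWA f a x) ∨ ∀ c : ℝ, 0 < c → ∃ (m : ℕ) (u' : E d), 1 ≤ m ∧
        Ret f a κ e r m 0 u' ∧ (m : ℝ) * (√‖u'‖) ^ k ≤ c := by
      rcases hcase with ⟨h1, h2⟩ | ⟨φ0, h1, h2, h3⟩
      · exact Or.inl ⟨by omega, h2⟩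
      · exact Or.inr (hFAS n d k M a x κ e r f hA hTube (by omega) φ0 h1 h2 h3)
    obtain ⟨δ, hδ, hmove⟩ := move hINV hOBP n (κ x) ρ0 t hρ0 ht0 hthalf
    set B : ℝ := ‖(e.symm : E d × E k →L[ℝ] E n)‖ + 1 with hB
    have hB0 : 0 < B := by positivity
    obtain ⟨w, m, u', U, hw, hm, hu', hur', hU, hret⟩ := hGOOD n d k M a x κ e r f hA hTube hk
      hf.c.continuous hc hnp hcase' ρ0 hρ0 hball (min t (δ / B)) (lt_min ht0 (by positivity))
    set q : M := sg κ e u' with hq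
    have htq : e.symm (u', 0) ∈ κ.target := hTube.tgt u' 0 hur' (by simpa using hTube.pos.le)
    have hqs : q ∈ κ.source := κ.map_target htq
    have hκq : κ q = e.symm (u', 0) := κ.right_inv htq
    have hκx : κ x = e.symm 0 := by rw [← hTube.org, e.symm_apply_apply]
    have hqx : ‖κ q - κ x‖ ≤ δ := by
      rw [hκq, hκx, ← map_sub, sub_zero]
      have h1 : ‖e.symm (u', (0 : E k))‖ ≤ B * ‖u'‖ := by
        have h2 := (e.symm : E d × E k →L[ℝ] E n).le_opNorm (u', (0 : E k))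
        have h3 : ‖(u', (0 : E k))‖ = ‖u'‖ := by
          rw [Prod.norm_def]
          simp
        rw [h3] at h2
        refine h2.trans (mul_le_mul_of_nonneg_right ?_ (norm_nonneg _))
        rw [hB]; linarith
      refine h1.trans ?_
      have h2 : ‖u'‖ ≤ δ / B := hu'.trans (min_le_right _ _)
      rwa [le_div_iff₀ hB0, mul_comm] at h2
    obtain ⟨V, V', hV, hV', hi1, hi2, hVx⟩ := hmove (κ q) hqx
    have hwt : ‖w‖ ≤ t := hw.trans (min_le_left _ _)
    have hUt : Bp n (closedBall (κ x) ρ0) t t t U :=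
      hU.mono subset_rfl (min_le_left _ _) (min_le_left _ _) (min_le_left _ _)
    obtain ⟨U', hU', hj1, hj2⟩ := hINV n _ _ _ _ U hUt hthalf
    obtain ⟨hDM, _, _⟩ := hBMD n M κ (closedBall (κ x) ρ0) _ _ _ _ _ _ V V' hκ
      (isCompact_closedBall _ _) hball hV hV' hi1 hi2
    obtain ⟨hDMU, _, _⟩ := hBMD n M κ (closedBall (κ x) ρ0) _ _ _ _ _ _ U U' hκ
      (isCompact_closedBall _ _) hball hUt hU' hj1 hj2
    have hDM' : DM n (bmp κ V') (bmp κ V) := ⟨hDM.c', hDM.c, hDM.ri, hDM.li⟩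
    have hG : DM n (a w ∘ f ∘ bmp κ U) ((bmp κ U' ∘ f') ∘ a (-w)) :=
      (hA.DM w).comp (hf.comp hDMU)
    have hτx : bmp κ V x = q := by
      rw [bmp_of_mem hxκ, hVx, add_sub_cancel, κ.left_inv hqs]
    have hτq : bmp κ V' q = x := by rw [← hτx]; exact hDM.li x
    refine ⟨bmp κ V' ∘ ((a w ∘ f ∘ bmp κ U) ∘ bmp κ V), _, m, hDM'.comp (hG.comp hDM), hm, ?_,
      fun i => ?_⟩
    · rcases conj_iterM (a w ∘ f ∘ bmp κ U) (bmp κ V) (bmp κ V') hDM.ri m x with h3 | h3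
      · rw [h3, hτx, hret, hτq]
      · omega
    · exact hcla i w U V V' (hwt.trans (htk i)) (hmono i U hUt) (hmono i V hV) (hmono i V' hV')

end Pool.Agent.H91.TC
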