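import Pool.Agent.H91.TC.Targets

/-! Closing lemma for diffeomorphisms with a torus symmetry: the version for points which are
nonwandering modulo the action. -/

open Set Function Topology Metric Filter
open scoped Manifold

namespace Pool.Agent.H91.TC

open Pool.Agent.H88.CL Pool.Agent.H88.CM

noncomputable section

/-- `x` is nonwandering for `f` modulo the action `a`. -/
def NWA {k : ℕ} {M : Type} [TopologicalSpace M] (f : M → M) (a : E k → M → M) (x : M) : Prop :=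
  ∀ V ∈ 𝓝 x, ∃ (m : ℕ) (v : E k), 1 ≤ m ∧ ∃ y ∈ V, a v (f^[m] y) ∈ V

/-- a nonwandering point gives returns -/
def T_NWR2 : Prop := ∀ (n d k : ℕ) (M : Type) [TopologicalSpace M] [T2Space M]
  [ChartedSpace (E n) M] [IsManifold 𝓘(ℝ, E n) 2 M] (a : E k → M → M) (x : M) (κ : Ch n M)
  (e : E n ≃L[ℝ] E d × E k) (r : ℝ) (f : M → M), Act n k a → Tube n d k a x κ e r →
  (∀ v y, f (a v y) = a v (f y)) → NWA f a x → ∀ ε : ℝ, 0 < ε → ε ≤ r →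
  ∃ (m : ℕ) (u u' : E d), 1 ≤ m ∧ Ret f a κ e r m u u' ∧ ‖u‖ ≤ ε ∧ ‖u'‖ ≤ ε

/-- the closing of the orbit of a point of the slice near `x` -/
def T_GOOD2 : Prop := ∀ (n d k : ℕ) (M : Type) [TopologicalSpace M] [T2Space M]
  [ChartedSpace (E n) M] [IsManifold 𝓘(ℝ, E n) 2 M] (a : E k → M → M) (x : M) (κ : Ch n M)
  (e : E n ≃L[ℝ] E d × E k) (r : ℝ) (f : M → M), Act n k a → Tube n d k a x κ e r → 3 ≤ k →
  Continuous f → (∀ v y, f (a v y) = a v (f y)) →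
  (∀ (m : ℕ) (v : E k), 1 ≤ m → f^[m] x ≠ a v x) →
  ((d < k ∧ NWA f a x) ∨ ∀ c : ℝ, 0 < c → ∃ (m : ℕ) (u' : E d), 1 ≤ m ∧ Ret f a κ e r m 0 u' ∧
    (m : ℝ) * (√‖u'‖) ^ k ≤ c) →
  ∀ ρ0 : ℝ, 0 < ρ0 → closedBall (κ x) ρ0 ⊆ κ.target → ∀ ε : ℝ, 0 < ε →
  ∃ (w : E k) (m : ℕ) (u' : E d) (U : E n → E n), ‖w‖ ≤ ε ∧ 1 ≤ m ∧ ‖u'‖ ≤ ε ∧ ‖u'‖ ≤ r ∧
    Bp n (closedBall (κ x) ρ0) ε ε ε U ∧ (a w ∘ f ∘ bmp κ U)^[m] (sg κ e u') = sg κ e u'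

/-- the closing lemma -/
def T_MAIN2 : Prop := ∀ (n k : ℕ) (M : Type) [TopologicalSpace M] [T2Space M] [CompactSpace M]
  [ChartedSpace (E n) M] [IsManifold 𝓘(ℝ, E n) 2 M] (a : E k → M → M) (f f' : M → M) (x : M),
  Act n k a → DM n f f' → 3 ≤ k → (∀ v y, f (a v y) = a v (f y)) →
  (∃ V ∈ 𝓝 x, ∀ y ∈ V, ∀ z ∈ Lat k, a z y = y) → (∀ v, a v x = x → v ∈ Lat k) →
  ((n < 2 * k ∧ NWA f a x) ∨ ∃ φ : Ch n M, φ ∈ MA n M ∧ x ∈ φ.source ∧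
    ∀ c : ℝ, 0 < c → ∃ (m : ℕ) (v : E k), 1 ≤ m ∧ a v (f^[m] x) ∈ φ.source ∧
    (m : ℝ) * (√‖φ (a v (f^[m] x)) - φ x‖) ^ k ≤ c) →
  ∀ (nt : ℕ) (φ ψ : Fin nt → Ch n M) (Q : Fin nt → Set M), (∀ i, Test n f (φ i) (ψ i) (Q i)) →
  ∀ η : ℝ, 0 < η → ∃ (g g' : M → M) (m : ℕ), DM n g g' ∧ 1 ≤ m ∧ g^[m] x = x ∧
    ∀ i, Cls2T n η f g (φ i) (ψ i) (Q i)

end

end Pool.Agent.H91.TC
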