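import Pool.Agent.H91.TC.Good
import Pool.Agent.H91.TC.Targets2

/-! (NWR2) returns near a point which is nonwandering modulo the action. -/

set_option autoImplicit false

open Set Function Topology Metric Filter
open scoped Manifold

namespace Pool.Agent.H91.TC

open Pool.Agent.H88.CL Pool.Agent.H88.CM

theorem pf_NWR2 : T_NWR2 := by
  intro n d k M _ _ _ _ a x κ e r f hA hT hc hnw ε hε hεr
  have h1 : Tendsto (fun y => e (κ y)) (𝓝 x) (𝓝 (e (κ x))) :=
    (e.continuous.tendsto _).comp (κ.continuousAt hT.src)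
  rw [hT.org] at h1
  have hV : ∀ᶠ y in 𝓝 x, y ∈ κ.source ∧ ‖e (κ y)‖ < ε := by
    have h2 := h1.norm
    rw [norm_zero] at h2
    have h3 : ∀ᶠ y in 𝓝 x, y ∈ κ.source := κ.open_source.mem_nhds hT.src
    exact h3.and (h2.eventually (gt_mem_nhds hε))
  obtain ⟨m, v, hm, y, hy, hy'⟩ := hnw _ hV
  have hpt : ∀ z : M, z ∈ κ.source → ‖e (κ z)‖ < ε →
      z = a (e (κ z)).2 (sg κ e (e (κ z)).1) := by
    intro z hz hz2
    have h3 := hT.act (e (κ z)).1 (e (κ z)).2 (((norm_fst_le _).trans hz2.le).trans hεr)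
      (((norm_snd_le _).trans hz2.le).trans hεr)
    rw [← h3, Prod.mk.eta, e.symm_apply_apply, κ.left_inv hz]
  have e1 := hpt y hy.1 hy.2
  have e2 := hpt _ hy'.1 hy'.2
  set p := e (κ y)
  set p' := e (κ (a v (f^[m] y)))
  refine ⟨m, p.1, p'.1, hm, ⟨((norm_fst_le _).trans hy.2.le).trans hεr,
    ((norm_fst_le _).trans hy'.2.le).trans hεr, -p.2 + (-v + p'.2), ?_⟩,
    (norm_fst_le _).trans hy.2.le, (norm_fst_le _).trans hy'.2.le⟩
  have e3 : sg κ e p.1 = a (-p.2) y := by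
    conv_rhs => rw [e1]
    rw [hA.neg_add]
  rw [e3, comm_iter hc, hA.add, hA.add, ← e2, hA.neg_add]

end Pool.Agent.H91.TC
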