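import Pool.Agent.H91.TC.Fin
import Pool.Agent.H91.TC.Main2
import Pool.Agent.H91.TC.NWR2
import Pool.Agent.H91.TC.CVT
import Pool.Agent.H1.TSC.LAT
import Pool.Agent.H1.TSC.SEL
import Pool.Agent.H10.TSC.TUA
import Pool.Agent.H11.TSC.NTA
import Pool.Agent.H12.TSC.ONE
import Pool.Agent.H35.TSC.TUB
import Pool.Agent.H49.TSC.CVF
import Pool.Agent.H7.TSC.FAS
import Pool.Agent.H75.TSC.NT
import Pool.Agent.H75.TSC.PIG
import Pool.Agent.H78.TSC.CVB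
import Pool.Agent.H78.TSC.NTB
import Pool.Agent.H79.TSC.CLA
import Pool.Agent.H79.TSC.PER
import Pool.Agent.H82.TSC.CVA
import Pool.Agent.H94.TSC.CVC
import Pool.Agent.H63.CLM.OBCM
import Pool.Agent.H64.CLM.RECM
import Pool.Agent.H12.CM.BMD
import Pool.Agent.H99.CM.INV
import Pool.Agent.H88.CL.All

/-! Closing lemma for diffeomorphisms with a torus symmetry: everything together. -/

set_option autoImplicit false

open Set Function Topology Metric Filter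
open scoped Manifold

namespace Pool.Agent.H91.TC

open Pool.Agent.H88.CL Pool.Agent.H88.CM

theorem b_OBP : Pool.Agent.H88.CL.T_OBP := Pool.Agent.H88.CL.a_OBP

theorem b_OBCM : T_OBCM := Pool.Agent.H63.CLM.pf_OBCM b_OBP

theorem b_INV : T_INV := Pool.Agent.H99.CM.pf_INV

theorem b_BMD : T_BMD := Pool.Agent.H12.CM.pf_BMD

theorem b_RECM : T_RECM := Pool.Agent.H64.CLM.pf_RECM

theorem b_NT : T_NT := Pool.Agent.H75.TSC.pf_NT Pool.Agent.H11.TSC.pf_NTA Pool.Agent.H78.TSC.pf_NTB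

theorem b_SEL : T_SEL := Pool.Agent.H1.TSC.pf_SEL Pool.Agent.H75.TSC.pf_PIG

theorem b_ONE : T_ONE := Pool.Agent.H12.TSC.pf_ONE b_OBCM

theorem b_CLA : T_CLA := Pool.Agent.H79.TSC.pf_CLA Pool.Agent.H94.TSC.pf_CVC
  Pool.Agent.H49.TSC.pf_CVF (Pool.Agent.H78.TSC.pf_CVB b_INV b_BMD) Pool.Agent.H82.TSC.pf_CVA cvt

theorem b_GOOD2 : T_GOOD2 := pf_GOOD2 b_NT b_SEL pf_NWR2 Pool.Agent.H1.TSC.pf_LAT b_ONE

theorem b_MAIN2 : T_MAIN2 := pf_MAIN2 Pool.Agent.H10.TSC.pf_TUA Pool.Agent.H35.TSC.pf_TUB b_GOOD2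
  Pool.Agent.H79.TSC.pf_PER Pool.Agent.H7.TSC.pf_FAS b_CLA b_INV b_BMD b_OBP

end Pool.Agent.H91.TC
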