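import Pool.Agent.H88.CM.Targets

/-! Closing lemma for diffeomorphisms with a torus symmetry (problem MP_43af95_an): definitions. -/

open Set Function Topology Metric Filter
open scoped Manifold

namespace Pool.Agent.H91.TC

open Pool.Agent.H88.CL Pool.Agent.H88.CM

noncomputable section

/-- A `C²` action of the group `ℝ^k` on the manifold `M`. -/
structure Act (n k : ℕ) {M : Type} [TopologicalSpace M] [ChartedSpace (E n) M]
    (a : E k → M → M) : Prop where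
  c2 : ContMDiff (𝓘(ℝ, E k).prod 𝓘(ℝ, E n)) 𝓘(ℝ, E n) 2 (fun p : E k × M => a p.1 p.2)
  zero : ∀ y, a 0 y = y
  add : ∀ v w y, a (v + w) y = a v (a w y)

/-- The slice `u ↦ κ⁻¹(e⁻¹(u, 0))` of the chart `κ`. -/
def sg {n d k : ℕ} {M : Type} [TopologicalSpace M] (κ : Ch n M) (e : E n ≃L[ℝ] E d × E k)
    (u : E d) : M := κ.symm (e.symm (u, 0))

/-- In the chart `e ∘ κ` around `x` the group `ℝ^k` acts by translations of the second coordinate;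
the slice meets an orbit of `ℝ^k` at most once, and the stabilisers are the lattice `ℤ^k`. -/
structure Tube (n d k : ℕ) {M : Type} [TopologicalSpace M] [ChartedSpace (E n) M]
    (a : E k → M → M) (x : M) (κ : Ch n M) (e : E n ≃L[ℝ] E d × E k) (r : ℝ) : Prop where
  atl : κ ∈ MA n M
  src : x ∈ κ.source
  org : e (κ x) = 0
  pos : 0 < r
  qtr : r ≤ 1 / 4
  tgt : ∀ (u : E d) (v : E k), ‖u‖ ≤ r → ‖v‖ ≤ r → e.symm (u, v) ∈ κ.target
  act : ∀ (u : E d) (v : E k), ‖u‖ ≤ r → ‖v‖ ≤ r → κ.symm (e.symm (u, v)) = a v (sg κ e u)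
  inj : ∀ (u u' : E d) (v : E k), ‖u‖ ≤ r → ‖u'‖ ≤ r → a v (sg κ e u) = sg κ e u' →
    u = u' ∧ v ∈ Lat k
  per : ∀ u : E d, ‖u‖ ≤ r → ∀ z ∈ Lat k, a z (sg κ e u) = sg κ e u

/-- `f^m` maps the point `u` of the slice to the orbit of the point `u'` of the slice. -/
def Ret {n d k : ℕ} {M : Type} [TopologicalSpace M] (f : M → M) (a : E k → M → M)
    (κ : Ch n M) (e : E n ≃L[ℝ] E d × E k) (r : ℝ) (m : ℕ) (u u' : E d) : Prop :=
  ‖u‖ ≤ r ∧ ‖u'‖ ≤ r ∧ ∃ v : E k, f^[m] (sg κ e u) = a v (sg κ e u')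

/-- The `2`-jet of `F` at `v`. -/
def jet {n : ℕ} (F : E n → E n) (v : E n) : E n × (E n →L[ℝ] E n) × (E n →L[ℝ] E n →L[ℝ] E n) :=
  (F v, fderiv ℝ F v, fderiv ℝ (fderiv ℝ F) v)

/-- The sequence `g i` of maps of `M` converges to `f` in the `C²` topology (continuous
convergence of the `2`-jets in charts). -/
structure Cv (n : ℕ) {M : Type} [TopologicalSpace M] [ChartedSpace (E n) M]
    (g : ℕ → M → M) (f : M → M) : Prop where
  c0 : ∀ y : M, Tendsto (fun p : ℕ × M => g p.1 p.2) (atTop ×ˢ 𝓝 y) (𝓝 (f y))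
  c2 : ∀ (y : M) (φ ψ : Ch n M), φ ∈ MA n M → ψ ∈ MA n M → y ∈ φ.source → f y ∈ ψ.source →
    Tendsto (fun p : ℕ × E n => jet (rep φ ψ (g p.1)) p.2) (atTop ×ˢ 𝓝 (φ y))
      (𝓝 (jet (rep φ ψ f) (φ y)))

/-- `g` is `η`-close to `f` in the `C²` sense on the test `(φ, ψ, K)`. -/
structure Cls2T (n : ℕ) {M : Type} [TopologicalSpace M] (η : ℝ) (f g : M → M)
    (φ ψ : Ch n M) (K : Set M) : Prop where
  m : ∀ y ∈ K, g y ∈ ψ.source
  z : ∀ y ∈ K, ‖ψ (g y) - ψ (f y)‖ ≤ η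
  o : ∀ u ∈ φ '' K, ‖fderiv ℝ (rep φ ψ g) u - fderiv ℝ (rep φ ψ f) u‖ ≤ η
  t : ∀ u ∈ φ '' K,
    ‖fderiv ℝ (fderiv ℝ (rep φ ψ g)) u - fderiv ℝ (fderiv ℝ (rep φ ψ f)) u‖ ≤ η

end

end Pool.Agent.H91.TC
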