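import Pool.Agent.H91.TC.Targets

/-! Closing lemma for diffeomorphisms with a torus symmetry: basic lemmas on `2`-jets. -/

open Set Function Topology Metric Filter
open scoped Manifold

namespace Pool.Agent.H91.TC

open Pool.Agent.H88.CL Pool.Agent.H88.CM

noncomputable section

/-- The space of `2`-jets. -/
abbrev J (n : ℕ) := E n × (E n →L[ℝ] E n) × (E n →L[ℝ] E n →L[ℝ] E n)

/-- The composition of `2`-jets. -/
def jc {n : ℕ} (p q : J n) : J n :=
  (p.1, p.2.1.comp q.2.1,
    ((ContinuousLinearMap.compL ℝ (E n) (E n) (E n)) p.2.1).comp q.2.2 +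
      ((ContinuousLinearMap.compL ℝ (E n) (E n) (E n)).flip q.2.1).comp (p.2.2.comp q.2.1))

theorem continuous_jc {n : ℕ} : Continuous (fun z : J n × J n => jc z.1 z.2) := by
  have h1 : Continuous (fun z : J n × J n => z.1.2.1) := by fun_prop
  have h2 : Continuous (fun z : J n × J n => z.2.2.1) := by fun_prop
  have h3 : Continuous (fun z : J n × J n => z.1.2.2) := by fun_prop
  have h4 : Continuous (fun z : J n × J n => z.2.2.2) := by fun_prop
  have h0 : Continuous (fun z : J n × J n => z.1.1) := by fun_prop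
  have h5 : Continuous (fun z : J n × J n =>
      ((ContinuousLinearMap.compL ℝ (E n) (E n) (E n)) z.1.2.1).comp z.2.2.2) :=
    (((ContinuousLinearMap.compL ℝ (E n) (E n) (E n)).continuous).comp h1).clm_comp h4
  have h6 : Continuous (fun z : J n × J n =>
      ((ContinuousLinearMap.compL ℝ (E n) (E n) (E n)).flip z.2.2.1).comp
        (z.1.2.2.comp z.2.2.1)) :=
    (((ContinuousLinearMap.compL ℝ (E n) (E n) (E n)).flip.continuous).comp h2).clm_comp
      (h3.clm_comp h2)
  exact h0.prodMk ((h1.clm_comp h2).prodMk (h5.add h6))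

/-- The chain rule for `2`-jets. -/
theorem jet_comp {n : ℕ} {F G : E n → E n} {v : E n} (hF : ContDiffAt ℝ 2 F v)
    (hG : ContDiffAt ℝ 2 G (F v)) : jet (G ∘ F) v = jc (jet G (F v)) (jet F v) := by
  have hF1 : ∀ᶠ w in 𝓝 v, ContDiffAt ℝ 2 F w := hF.eventually (by simp)
  have hG1 : ∀ᶠ w in 𝓝 v, ContDiffAt ℝ 2 G (F w) :=
    hF.continuousAt.eventually (hG.eventually (by simp))
  have hd : fderiv ℝ (G ∘ F) =ᶠ[𝓝 v] fun w => (fderiv ℝ G (F w)).comp (fderiv ℝ F w) := by
    filter_upwards [hF1, hG1] with w h1 h2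
    exact fderiv_comp w (h2.differentiableAt (by norm_num)) (h1.differentiableAt (by norm_num))
  have hFd : DifferentiableAt ℝ (fderiv ℝ F) v :=
    (hF.fderiv_right (m := 1) (by norm_num)).differentiableAt (by norm_num)
  have hGd : DifferentiableAt ℝ (fderiv ℝ G) (F v) :=
    (hG.fderiv_right (m := 1) (by norm_num)).differentiableAt (by norm_num)
  have h2 : HasFDerivAt (fun w => fderiv ℝ G (F w))
      ((fderiv ℝ (fderiv ℝ G) (F v)).comp (fderiv ℝ F v)) v :=
    hGd.hasFDerivAt.comp v (hF.differentiableAt (by norm_num)).hasFDerivAt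
  have h3 := h2.clm_comp hFd.hasFDerivAt
  refine Prod.ext rfl (Prod.ext hd.self_of_nhds ?_)
  change fderiv ℝ (fderiv ℝ (G ∘ F)) v = _
  rw [hd.fderiv_eq, h3.fderiv]
  rfl

/-- The `2`-jet depends only on the germ. -/
theorem jet_congr {n : ℕ} {F G : E n → E n} {v : E n} (h : F =ᶠ[𝓝 v] G) : jet F v = jet G v :=
  Prod.ext h.self_of_nhds (Prod.ext h.fderiv_eq h.fderiv.fderiv_eq)

/-- The `2`-jet of a `C²` map is continuous. -/
theorem jet_continuousAt {n : ℕ} {F : E n → E n} {v : E n} (hF : ContDiffAt ℝ 2 F v) :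
    ContinuousAt (jet F) v := by
  have h1 : ContDiffAt ℝ 1 (fderiv ℝ F) v := hF.fderiv_right (m := 1) (by norm_num)
  have h2 : ContDiffAt ℝ 0 (fderiv ℝ (fderiv ℝ F)) v := h1.fderiv_right (m := 0) (by norm_num)
  exact hF.continuousAt.prodMk (h1.continuousAt.prodMk h2.continuousAt)

theorem jet_tendsto_comp {n : ℕ} {ι : Type} {l : Filter ι} {F G : ι → E n → E n} {v : ι → E n}
    {p q : J n} (hF : ∀ᶠ i in l, ContDiffAt ℝ 2 (F i) (v i))
    (hG : ∀ᶠ i in l, ContDiffAt ℝ 2 (G i) (F i (v i)))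
    (h1 : Tendsto (fun i => jet (F i) (v i)) l (𝓝 q))
    (h2 : Tendsto (fun i => jet (G i) (F i (v i))) l (𝓝 p)) :
    Tendsto (fun i => jet (G i ∘ F i) (v i)) l (𝓝 (jc p q)) := by
  have h3 : Tendsto (fun i => jc (jet (G i) (F i (v i))) (jet (F i) (v i))) l (𝓝 (jc p q)) :=
    (continuous_jc.tendsto (p, q)).comp (h2.prodMk_nhds h1)
  refine h3.congr' ?_
  filter_upwards [hF, hG] with i h4 h5
  exact (jet_comp h4 h5).symm

end

end Pool.Agent.H91.TC
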