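import Pool.Agent.H91.TC.Statement
import Pool.Agent.H91.TC.Targets2
import Pool.Agent.H88.CM.Stat

/-! The closing lemma for diffeomorphisms with a torus symmetry in terms of the definitions of
`Pool/Agent/H91/TC/Statement.lean`. -/

set_option autoImplicit false

open Set Function Topology Metric Filter
open scoped Manifold

namespace Pool.Agent.H91.TC

open Pool.Agent.H88.CL Pool.Agent.H88.CM

theorem fin_of_main (hMAIN : T_MAIN2) (hREC : T_RECM) (n k : ℕ) (hk : 3 ≤ k) (M : Type)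
    [TopologicalSpace M] [T2Space M] [CompactSpace M] [ChartedSpace (TCS.E n) M]
    (hM : TCS.IsMfd n M) (f : Equiv.Perm M) (hf : TCS.Diff2 n f) (a : TCS.E k → M → M)
    (ha : TCS.Action n k a) (hc : ∀ v y, f (a v y) = a v (f y)) (x : M) (hx : TCS.TorusAt a x)
    (hr : (n < 2 * k ∧ (TCS.Recurrent f x ∨ TCS.NonWanderingMod a f x)) ∨ TCS.FastReturns n k a f x)
    (nt : ℕ) (φ ψ : Fin nt → TCS.Chart n M) (K : Fin nt → Set M)
    (hT : ∀ i, TCS.Test n f (φ i) (ψ i) (K i)) (η : ℝ) (hη : 0 < η) :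
    ∃ g : Equiv.Perm M, TCS.Diff2 n g ∧ (∃ m : ℕ, 1 ≤ m ∧ (g ^ m) x = x) ∧
      ∀ i, TCS.Close2 n η f g (φ i) (ψ i) (K i) := by
  have : IsManifold 𝓘(ℝ, E n) 2 M := hM
  have hA : Act n k a := ⟨ha.smooth, ha.zero, ha.add⟩
  have hDM : DM n f f.symm := ⟨hf.1, hf.2, f.symm_apply_apply, f.apply_symm_apply⟩
  obtain ⟨⟨V, hV, hVz⟩, hst⟩ := hx
  have hcase : (n < 2 * k ∧ NWA f a x) ∨ ∃ φ : Ch n M, φ ∈ MA n M ∧ x ∈ φ.source ∧
      ∀ c : ℝ, 0 < c → ∃ (m : ℕ) (v : E k), 1 ≤ m ∧ a v (f^[m] x) ∈ φ.source ∧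
      (m : ℝ) * (√‖φ (a v (f^[m] x)) - φ x‖) ^ k ≤ c := by
    rcases hr with ⟨h1, h2⟩ | ⟨φ0, h1, h2, h3⟩
    · refine Or.inl ⟨h1, ?_⟩
      rcases h2 with h2 | h2
      · intro W hW
        obtain ⟨m, hm, _, ⟨y, hy, rfl⟩, h4⟩ :=
          hREC M f x hDM.c.continuous hDM.c'.continuous h2 W hW
        exact ⟨m, 0, hm, y, hy, by rw [hA.zero]; exact h4⟩
      · intro W hW
        obtain ⟨m, v, hm, y, hy, h4⟩ := h2 W hW
        rw [perm_pow] at h4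
        exact ⟨m, v, hm, y, hy, h4⟩
    · refine Or.inr ⟨φ0, h1, h2, fun c hc0 => ?_⟩
      obtain ⟨m, v, h4, h5, h6⟩ := h3 c hc0
      rw [perm_pow] at h5 h6
      exact ⟨m, v, h4, h5, h6⟩
  obtain ⟨g, g', m, hg, hm, hret, hcl⟩ := hMAIN n k M a f f.symm x hA hDM hk hc
    ⟨V, hV, fun y hy z hz => hVz y hy z hz⟩ (fun v hv => hst v hv) hcase nt φ ψ K
    (fun i => ⟨(hT i).fst, (hT i).snd, (hT i).compact, (hT i).source, (hT i).maps⟩) η hη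
  refine ⟨⟨g, g', hg.li, hg.ri⟩, ⟨hg.c, hg.c'⟩, ⟨m, hm, ?_⟩, fun i => ⟨(hcl i).m, (hcl i).z,
    fun u hu w => ?_, fun u hu w w' => ?_⟩⟩
  · rw [perm_pow]
    exact hret
  · have h1 := (fderiv ℝ (rep (φ i) (ψ i) g) u - fderiv ℝ (rep (φ i) (ψ i) f) u).le_opNorm w
    exact h1.trans (mul_le_mul_of_nonneg_right ((hcl i).o u hu) (norm_nonneg w))
  · have h1 := (fderiv ℝ (fderiv ℝ (rep (φ i) (ψ i) g)) u -
      fderiv ℝ (fderiv ℝ (rep (φ i) (ψ i) f)) u).le_opNorm₂ w w'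
    exact h1.trans (mul_le_mul_of_nonneg_right (mul_le_mul_of_nonneg_right ((hcl i).t u hu)
      (norm_nonneg w)) (norm_nonneg w'))

end Pool.Agent.H91.TC
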