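import Pool.Agent.H91.TC.Basic

/-! (GOOD) the closing of the orbit of a point of the slice near `x`. -/

set_option autoImplicit false

open Set Function Topology Metric Filter
open scoped Manifold

namespace Pool.Agent.H91.TC

open Pool.Agent.H88.CL Pool.Agent.H88.CM

section act

variable {n k : ℕ} {M : Type} [TopologicalSpace M] [ChartedSpace (E n) M] {a : E k → M → M}

theorem Act.neg_add (h : Act n k a) (v : E k) (y : M) : a (-v) (a v y) = y := by
  rw [← h.add, neg_add_cancel, h.zero]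

theorem Act.add_neg (h : Act n k a) (v : E k) (y : M) : a v (a (-v) y) = y := by
  rw [← h.add, add_neg_cancel, h.zero]

omit [TopologicalSpace M] in
theorem comm_iter {f : M → M} (hc : ∀ v y, f (a v y) = a v (f y)) (m : ℕ) (v : E k) (y : M) :
    f^[m] (a v y) = a v (f^[m] y) := by
  induction m generalizing y with
  | zero => rfl
  | succ m ih => rw [iterate_succ_apply, hc, ih, iterate_succ_apply]

theorem iter_act (h : Act n k a) {f : M → M} (hc : ∀ v y, f (a v y) = a v (f y)) (w : E k)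
    (m : ℕ) (y : M) : (a w ∘ f)^[m] y = a ((m : ℝ) • w) (f^[m] y) := by
  induction m generalizing y with
  | zero => simp [h.zero]
  | succ m ih =>
    rw [iterate_succ_apply, ih, comp_apply, comm_iter hc, ← h.add, iterate_succ_apply]
    congr 1
    push_cast
    module

end act

theorem bmp_zero {n : ℕ} {M : Type} [TopologicalSpace M] (κ : Ch n M) :
    bmp κ (fun _ => 0) = id := by
  funext y
  unfold bmp
  split_ifs with h
  · simp [κ.left_inv h]
  · rfl

theorem Bp_zero {n : ℕ} (K : Set (E n)) {ε : ℝ} (hε : 0 ≤ ε) :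
    Bp n K ε ε ε (fun _ => (0 : E n)) where
  c2 := contDiff_const
  sup := fun v h => absurd rfl h
  s := fun v => by simpa using hε
  b := fun v => by simpa using hε
  g := fun v w => by
    simp only [fderiv_fun_const, Pi.zero_apply, sub_self, norm_zero]
    positivity

section ret

variable {n d k : ℕ} {M : Type} [TopologicalSpace M] [ChartedSpace (E n) M]
  {a : E k → M → M} {x : M} {κ : Ch n M} {e : E n ≃L[ℝ] E d × E k} {r : ℝ} {f : M → M}

theorem Ret.shift (hA : Act n k a) (hc : ∀ v y, f (a v y) = a v (f y)) {l m : ℕ} {u u1 u2 : E d}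
    (h1 : Ret f a κ e r l u u1) (h2 : Ret f a κ e r m u u2) (hlm : l < m) :
    Ret f a κ e r (m - l) u1 u2 := by
  obtain ⟨_, h12, v, hv⟩ := h1
  obtain ⟨_, h22, v', hv'⟩ := h2
  refine ⟨h12, h22, -v + v', ?_⟩
  have h3 : sg κ e u1 = a (-v) (f^[l] (sg κ e u)) := by rw [hv, hA.neg_add]
  rw [h3, comm_iter hc, ← iterate_add_apply, Nat.sub_add_cancel hlm.le, hv', ← hA.add]

theorem Tube.sg_zero (hT : Tube n d k a x κ e r) : sg κ e (0 : E d) = x := by
  have h1 : e.symm ((0 : E d), (0 : E k)) = κ x := by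
    have h2 : ((0 : E d), (0 : E k)) = e (κ x) := by rw [hT.org]; rfl
    rw [h2, e.symm_apply_apply]
  rw [sg, h1, κ.left_inv hT.src]

theorem Tube.inj' (hA : Act n k a) (hT : Tube n d k a x κ e r) {u u' : E d} {v v' : E k}
    (hu : ‖u‖ ≤ r) (hu' : ‖u'‖ ≤ r) (h : a v (sg κ e u) = a v' (sg κ e u')) :
    u = u' ∧ v - v' ∈ Lat k := by
  refine hT.inj u u' (v - v') hu hu' ?_
  have h1 : v - v' = -v' + v := by abel
  rw [h1, hA.add, h, hA.neg_add]

end ret

theorem core (hN : T_NT) (hO : T_ONE) (n d k : ℕ) (M : Type) [TopologicalSpace M] [T2Space M]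
    [ChartedSpace (E n) M] [IsManifold 𝓘(ℝ, E n) 2 M] (a : E k → M → M) (x : M) (κ : Ch n M)
    (e : E n ≃L[ℝ] E d × E k) (r : ℝ) (hA : Act n k a) (hT : Tube n d k a x κ e r)
    (hk : 3 ≤ k) (ρ0 : ℝ) (hρ0 : 0 < ρ0) (hball : closedBall (κ x) ρ0 ⊆ κ.target) (ε : ℝ)
    (hε : 0 < ε) : ∃ (K ε1 c : ℝ) (m0 : ℕ), 0 < K ∧ 0 < ε1 ∧ 0 < c ∧ ∀ f : M → M,
      (∀ v y, f (a v y) = a v (f y)) → ∀ (m : ℕ) (u u' : E d), 1 ≤ m → m0 ≤ m →
      Ret f a κ e r m u u' → ‖u‖ ≤ ε1 → ‖u'‖ ≤ ε1 → √‖u - u'‖ ≤ K →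
      (u = u' ∨ ∀ L : Finset ℕ, (∀ l ∈ L, 0 < l ∧ l < m ∧
        ∃ u'', Ret f a κ e r l u u'' ∧ ‖u'' - u‖ ≤ 2 * K * √‖u - u'‖) →
        (L.card : ℝ) * (√‖u - u'‖) ^ k ≤ c) →
      ∃ (w : E k) (U : E n → E n), ‖w‖ ≤ ε ∧ Bp n (closedBall (κ x) ρ0) ε ε ε U ∧
        (a w ∘ f ∘ bmp κ U)^[m] (sg κ e u') = sg κ e u' := by
  classical
  obtain ⟨K, ε1, hK, hε1, hone⟩ := hO n d k M a x κ e r hA hT ρ0 hρ0 hball ε hε
  obtain ⟨c, m0, hc0, hnt⟩ := hN k hk ε hε
  refine ⟨K, ε1, c / K ^ k, m0, hK, hε1, by positivity, ?_⟩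
  intro f hc m u u' hm hm0 hret hu hu' hδK hgood
  obtain ⟨hur, hur', vm, hvm⟩ := hret
  rcases eq_or_ne u u' with rfl | hne
  · obtain ⟨w, hw, hwm, -⟩ := hnt m hm0 0 ∅ le_rfl (by simp) (by simpa using hc0.le) (fun _ => vm)
    refine ⟨w, fun _ => 0, hw, Bp_zero _ hε.le, ?_⟩
    rw [bmp_zero, comp_id, iter_act hA hc, hvm, ← hA.add]
    exact hT.per u hur _ hwm
  · have hgood' := hgood.resolve_left hne
    set δ := ‖u - u'‖ with hδ
    set L : Finset ℕ := (Finset.Ioo 0 m).filter (fun l => ∃ u'', Ret f a κ e r l u u'' ∧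
      ‖u'' - u‖ ≤ 2 * K * √δ) with hL
    have hLmem : ∀ l ∈ L, 0 < l ∧ l < m ∧ ∃ u'', Ret f a κ e r l u u'' ∧
        ‖u'' - u‖ ≤ 2 * K * √δ := by
      intro l hl
      rw [hL, Finset.mem_filter, Finset.mem_Ioo] at hl
      exact ⟨hl.1.1, hl.1.2, hl.2⟩
    have hcard := hgood' L hLmem
    -- the fibre coordinates
    have hex : ∀ l : ℕ, ∃ v : E k, (l = m → v = vm) ∧ (l ∈ L → ∃ u'' : E d, ‖u''‖ ≤ r ∧
        f^[l] (sg κ e u) = a v (sg κ e u'')) := by
      intro l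
      by_cases hlm : l = m
      · subst hlm
        exact ⟨vm, fun _ => rfl, fun hl => absurd (hLmem l hl).2.1 (lt_irrefl l)⟩
      · by_cases hl : l ∈ L
        · obtain ⟨-, -, u'', ⟨-, hr2, v, hv⟩, -⟩ := hLmem l hl
          exact ⟨v, fun h => absurd h hlm, fun _ => ⟨u'', hr2, hv⟩⟩
        · exact ⟨0, fun h => absurd h hlm, fun h => absurd h hl⟩
    choose S hSm hSL using hex
    have hR0 : 0 ≤ K * √δ := by positivity
    obtain ⟨w, hw, hwm, hwL⟩ := hnt m hm0 (K * √δ) L hR0 (fun l hl => ⟨(hLmem l hl).1,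
      (hLmem l hl).2.1⟩) (by
        rw [mul_pow, mul_left_comm, mul_comm]
        rwa [le_div_iff₀ (by positivity)] at hcard) S
    rw [hSm m rfl] at hwm
    obtain ⟨U, hU, hUm⟩ := hone f hc m u u' w hm hu hu' hne (by
      have h1 : a ((m : ℝ) • w + vm) (sg κ e u') = sg κ e u' := hT.per u' hur' _ hwm
      rw [hvm]
      conv_rhs => rw [← h1]
      rw [hA.add, hA.neg_add]) (by
      intro l hl0 hlm u'' v hu'' h1 h2 h3
      have hret' : Ret f a κ e r l u u'' := ⟨hur, hu'', _, h3⟩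
      have h4 : ‖u'' - u‖ ≤ 2 * K * √δ := by
        have h5 : ‖u'' - u‖ ≤ ‖u'' - u'‖ + ‖u' - u‖ := by
          have := norm_add_le (u'' - u') (u' - u)
          rwa [sub_add_sub_cancel] at this
        have h6 : ‖u' - u‖ = √δ * √δ := by
          rw [Real.mul_self_sqrt (norm_nonneg _), norm_sub_rev]
        have h7 : √δ * √δ ≤ K * √δ := mul_le_mul_of_nonneg_right hδK (Real.sqrt_nonneg _)
        linarith
      have hlL : l ∈ L := by
        rw [hL, Finset.mem_filter, Finset.mem_Ioo]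
        exact ⟨⟨hl0, hlm⟩, u'', hret', h4⟩
      obtain ⟨u3, hu3, h5⟩ := hSL l hlL
      have h6 := (Tube.inj' hA hT hu'' hu3 (h3.symm.trans h5)).2
      have h7 : (l : ℝ) • w + S l - v ∈ Lat k := by
        have h8 : (l : ℝ) • w + S l - v = -(v - (l : ℝ) • w - S l) := by abel
        rw [h8]
        exact (Lat k).neg_mem h6
      have h8 := hwL l hlL _ h7
      have h9 : (l : ℝ) • w + S l - ((l : ℝ) • w + S l - v) = v := by abel
      rw [h9] at h8
      exact absurd h8 (not_lt.2 h2))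
    exact ⟨w, U, hw, hU, hUm⟩

theorem pf_GOOD (hN : T_NT) (hS : T_SEL) (hW : T_NWR) (hL : T_LAT) (hO : T_ONE) : T_GOOD := by
  intro n d k M _ _ _ _ a x κ e r f hA hT hk hf hc hnp hcase ρ0 hρ0 hball ε hε
  obtain ⟨K, ε1, c, m0, hK, hε1, hc0, hcore⟩ := core hN hO n d k M a x κ e r hA hT hk ρ0 hρ0
    hball ε hε
  obtain ⟨ε2, hε2, hlat⟩ := hL n d k M a x κ e r f hA hT hf hnp m0
  set θ : ℝ := min (min ε ε1) (min ε2 r) with hθ
  have hθ0 : 0 < θ := lt_min (lt_min hε hε1) (lt_min hε2 hT.pos)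
  have hθε : θ ≤ ε := (min_le_left _ _).trans (min_le_left _ _)
  have hθ1 : θ ≤ ε1 := (min_le_left _ _).trans (min_le_right _ _)
  have hθ2 : θ ≤ ε2 := (min_le_right _ _).trans (min_le_left _ _)
  have hθr : θ ≤ r := (min_le_right _ _).trans (min_le_right _ _)
  rcases hcase with ⟨hdk, hnw⟩ | hfast
  · obtain ⟨δ0, hδ0, hsel⟩ := hS d k hdk (2 * K) c (by positivity) hc0
    set t : ℝ := min (min 1 K) (min (√δ0) (θ / (2 + 8 * K))) with ht
    have ht0 : 0 < t := lt_min (lt_min one_pos hK) (lt_min (Real.sqrt_pos.2 hδ0) (by positivity))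
    have ht1 : t ≤ 1 := (min_le_left _ _).trans (min_le_left _ _)
    have htK : t ≤ K := (min_le_left _ _).trans (min_le_right _ _)
    have htδ : t ≤ √δ0 := (min_le_right _ _).trans (min_le_left _ _)
    have htθ : t * (2 + 8 * K) ≤ θ := by
      have h1 : t ≤ θ / (2 + 8 * K) := (min_le_right _ _).trans (min_le_right _ _)
      rwa [le_div_iff₀ (by positivity)] at h1
    have htt : t ^ 2 ≤ t := by nlinarith
    have htδ2 : t ^ 2 ≤ δ0 := by
      have h1 : t ^ 2 ≤ (√δ0) ^ 2 := pow_le_pow_left₀ ht0.le htδ 2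
      rwa [Real.sq_sqrt hδ0.le] at h1
    have htKt : 0 < t * K := mul_pos ht0 hK
    obtain ⟨m, u, u', hm, hret, hu, hu'⟩ := hW n d k M a x κ e r f hA hT hc hnw (t ^ 2 / 2)
      (by positivity) (by nlinarith)
    have hδ : ‖u - u'‖ ≤ t ^ 2 := by
      have := norm_sub_le u u'
      linarith
    have hsδ : √‖u - u'‖ ≤ t := by
      rw [Real.sqrt_le_left ht0.le]
      exact hδ
    obtain ⟨m1, u1, u1', hm1, hret1, h1, h2, h3⟩ := hsel (Ret f a κ e r)
      (fun l m u u1 u2 h1 h2 hlm => Ret.shift hA hc h1 h2 hlm) m u u' hm hret (hδ.trans htδ2)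
    have hu1 : ‖u1‖ ≤ θ - t ^ 2 := by
      have h4 : ‖u1‖ ≤ ‖u1 - u‖ + ‖u‖ := by
        have := norm_add_le (u1 - u) u
        rwa [sub_add_cancel] at this
      have h5 : 4 * (2 * K) * √‖u - u'‖ ≤ 8 * K * t := by nlinarith
      nlinarith
    have hu1θ : ‖u1‖ ≤ θ := by nlinarith
    have hu1' : ‖u1'‖ ≤ θ := by
      have h4 : ‖u1'‖ ≤ ‖u1 - u1'‖ + ‖u1‖ := by
        have := norm_add_le (u1' - u1) u1
        rw [sub_add_cancel, norm_sub_rev] at this
        exact this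
      linarith
    have hm0 := hlat m1 u1 u1' hm1 hret1 (hu1θ.trans hθ2) (hu1'.trans hθ2)
    have hs1 : √‖u1 - u1'‖ ≤ K := (Real.sqrt_le_sqrt h2).trans (hsδ.trans htK)
    obtain ⟨w, U, hw, hU, hUm⟩ := hcore f hc m1 u1 u1' hm1 hm0 hret1 (hu1θ.trans hθ1)
      (hu1'.trans hθ1) hs1 h3
    exact ⟨w, m1, u1', U, hw, hm1, hu1'.trans hθε, hu1'.trans hθr, hU, hUm⟩
  · set t : ℝ := min (min 1 K) θ with ht
    have ht0 : 0 < t := lt_min (lt_min one_pos hK) hθ0
    have ht1 : t ≤ 1 := (min_le_left _ _).trans (min_le_left _ _)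
    have htK : t ≤ K := (min_le_left _ _).trans (min_le_right _ _)
    have htθ : t ≤ θ := min_le_right _ _
    obtain ⟨m, u', hm, hret, hfa⟩ := hfast (min c (t ^ k)) (lt_min hc0 (by positivity))
    have hm1 : (1 : ℝ) ≤ m := by exact_mod_cast hm
    have hs : √‖u'‖ ≤ t := by
      have h1 : (√‖u'‖) ^ k ≤ t ^ k := by
        have h2 : (√‖u'‖) ^ k ≤ (m : ℝ) * (√‖u'‖) ^ k := le_mul_of_one_le_left (by positivity) hm1
        exact h2.trans (hfa.trans (min_le_right _ _))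
      exact le_of_pow_le_pow_left₀ (by omega) ht0.le h1
    have hu' : ‖u'‖ ≤ θ := by
      have h1 : ‖u'‖ = (√‖u'‖) ^ 2 := (Real.sq_sqrt (norm_nonneg _)).symm
      have h2 : (√‖u'‖) ^ 2 ≤ t ^ 2 := pow_le_pow_left₀ (Real.sqrt_nonneg _) hs 2
      nlinarith
    have h0 : ‖(0 : E d) - u'‖ = ‖u'‖ := by rw [zero_sub, norm_neg]
    have hm0 := hlat m 0 u' hm hret (by simpa using hε2.le) (hu'.trans hθ2)
    obtain ⟨w, U, hw, hU, hUm⟩ := hcore f hc m 0 u' hm hm0 hret (by simpa using hε1.le)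
      (hu'.trans hθ1) (by rw [h0]; exact hs.trans htK) (Or.inr fun L hL' => by
        rw [h0]
        have h1 : (L.card : ℝ) ≤ m := by
          have h2 : L ⊆ Finset.Ioo 0 m := fun l hl => by
            rw [Finset.mem_Ioo]
            exact ⟨(hL' l hl).1, (hL' l hl).2.1⟩
          have h3 := Finset.card_le_card h2
          rw [Nat.card_Ioo] at h3
          have h4 : L.card ≤ m := by omega
          exact_mod_cast h4
        calc (L.card : ℝ) * (√‖u'‖) ^ k ≤ (m : ℝ) * (√‖u'‖) ^ k :=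
              mul_le_mul_of_nonneg_right h1 (by positivity)
          _ ≤ c := hfa.trans (min_le_left _ _))
    exact ⟨w, m, u', U, hw, hm, hu'.trans hθε, hu'.trans hθr, hU, hUm⟩

end Pool.Agent.H91.TC
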