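import Pool.Agent.H91.TC.Good
import Pool.Agent.H91.TC.Targets2

/-! (GOOD2) the closing of the orbit of a point of the slice near `x`, for points nonwandering modulo
the action. -/

set_option autoImplicit false

open Set Function Topology Metric Filter
open scoped Manifold

namespace Pool.Agent.H91.TC

open Pool.Agent.H88.CL Pool.Agent.H88.CM

theorem pf_GOOD2 (hN : T_NT) (hS : T_SEL) (hW : T_NWR2) (hL : T_LAT) (hO : T_ONE) :
    T_GOOD2 := by
  intro n d k M _ _ _ _ a x κ e r f hA hT hk hf hc hnp hcase ρ0 hρ0 hball ε hε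
  obtain ⟨K, ε1, c, m0, hK, hε1, hc0, hcore⟩ := core hN hO n d k M a x κ e r hA hT hk ρ0 hρ0
    hball ε hε
  obtain ⟨ε2, hε2, hlat⟩ := hL n d k M a x κ e r f hA hT hf hnp m0
  set θ : ℝ := min (min ε ε1) (min ε2 r) with hθ
  have hθ0 : 0 < θ := lt_min (lt_min hε hε1) (lt_min hε2 hT.pos)
  have hθε : θ ≤ ε := (min_le_left _ _).trans (min_le_left _ _)
  have hθ1 : θ ≤ ε1 := (min_le_left _ _).trans (min_le_right _ _)
  have hθ2 : θ ≤ ε2 := (min_le_right _ _).trans (min_le_left _ _)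
  have hθr : θ ≤ r := (min_le_right _ _).trans (min_le_right _ _)
  rcases hcase with ⟨hdk, hnw⟩ | hfast
  · obtain ⟨δ0, hδ0, hsel⟩ := hS d k hdk (2 * K) c (by positivity) hc0
    set t : ℝ := min (min 1 K) (min (√δ0) (θ / (2 + 8 * K))) with ht
    have ht0 : 0 < t := lt_min (lt_min one_pos hK) (lt_min (Real.sqrt_pos.2 hδ0) (by positivity))
    have ht1 : t ≤ 1 := (min_le_left _ _).trans (min_le_left _ _)
    have htK : t ≤ K := (min_le_left _ _).trans (min_le_right _ _)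
    have htδ : t ≤ √δ0 := (min_le_right _ _).trans (min_le_left _ _)
    have htθ : t * (2 + 8 * K) ≤ θ := by
      have h1 : t ≤ θ / (2 + 8 * K) := (min_le_right _ _).trans (min_le_right _ _)
      rwa [le_div_iff₀ (by positivity)] at h1
    have htt : t ^ 2 ≤ t := by nlinarith
    have htδ2 : t ^ 2 ≤ δ0 := by
      have h1 : t ^ 2 ≤ (√δ0) ^ 2 := pow_le_pow_left₀ ht0.le htδ 2
      rwa [Real.sq_sqrt hδ0.le] at h1
    have htKt : 0 < t * K := mul_pos ht0 hK
    obtain ⟨m, u, u', hm, hret, hu, hu'⟩ := hW n d k M a x κ e r f hA hT hc hnw (t ^ 2 / 2)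
      (by positivity) (by nlinarith)
    have hδ : ‖u - u'‖ ≤ t ^ 2 := by
      have := norm_sub_le u u'
      linarith
    have hsδ : √‖u - u'‖ ≤ t := by
      rw [Real.sqrt_le_left ht0.le]
      exact hδ
    obtain ⟨m1, u1, u1', hm1, hret1, h1, h2, h3⟩ := hsel (Ret f a κ e r)
      (fun l m u u1 u2 h1 h2 hlm => Ret.shift hA hc h1 h2 hlm) m u u' hm hret (hδ.trans htδ2)
    have hu1 : ‖u1‖ ≤ θ - t ^ 2 := by
      have h4 : ‖u1‖ ≤ ‖u1 - u‖ + ‖u‖ := by
        have := norm_add_le (u1 - u) u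
        rwa [sub_add_cancel] at this
      have h5 : 4 * (2 * K) * √‖u - u'‖ ≤ 8 * K * t := by nlinarith
      nlinarith
    have hu1θ : ‖u1‖ ≤ θ := by nlinarith
    have hu1' : ‖u1'‖ ≤ θ := by
      have h4 : ‖u1'‖ ≤ ‖u1 - u1'‖ + ‖u1‖ := by
        have := norm_add_le (u1' - u1) u1
        rw [sub_add_cancel, norm_sub_rev] at this
        exact this
      linarith
    have hm0 := hlat m1 u1 u1' hm1 hret1 (hu1θ.trans hθ2) (hu1'.trans hθ2)
    have hs1 : √‖u1 - u1'‖ ≤ K := (Real.sqrt_le_sqrt h2).trans (hsδ.trans htK)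
    obtain ⟨w, U, hw, hU, hUm⟩ := hcore f hc m1 u1 u1' hm1 hm0 hret1 (hu1θ.trans hθ1)
      (hu1'.trans hθ1) hs1 h3
    exact ⟨w, m1, u1', U, hw, hm1, hu1'.trans hθε, hu1'.trans hθr, hU, hUm⟩
  · set t : ℝ := min (min 1 K) θ with ht
    have ht0 : 0 < t := lt_min (lt_min one_pos hK) hθ0
    have ht1 : t ≤ 1 := (min_le_left _ _).trans (min_le_left _ _)
    have htK : t ≤ K := (min_le_left _ _).trans (min_le_right _ _)
    have htθ : t ≤ θ := min_le_right _ _
    obtain ⟨m, u', hm, hret, hfa⟩ := hfast (min c (t ^ k)) (lt_min hc0 (by positivity))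
    have hm1 : (1 : ℝ) ≤ m := by exact_mod_cast hm
    have hs : √‖u'‖ ≤ t := by
      have h1 : (√‖u'‖) ^ k ≤ t ^ k := by
        have h2 : (√‖u'‖) ^ k ≤ (m : ℝ) * (√‖u'‖) ^ k := le_mul_of_one_le_left (by positivity) hm1
        exact h2.trans (hfa.trans (min_le_right _ _))
      exact le_of_pow_le_pow_left₀ (by omega) ht0.le h1
    have hu' : ‖u'‖ ≤ θ := by
      have h1 : ‖u'‖ = (√‖u'‖) ^ 2 := (Real.sq_sqrt (norm_nonneg _)).symm
      have h2 : (√‖u'‖) ^ 2 ≤ t ^ 2 := pow_le_pow_left₀ (Real.sqrt_nonneg _) hs 2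
      nlinarith
    have h0 : ‖(0 : E d) - u'‖ = ‖u'‖ := by rw [zero_sub, norm_neg]
    have hm0 := hlat m 0 u' hm hret (by simpa using hε2.le) (hu'.trans hθ2)
    obtain ⟨w, U, hw, hU, hUm⟩ := hcore f hc m 0 u' hm hm0 hret (by simpa using hε1.le)
      (hu'.trans hθ1) (by rw [h0]; exact hs.trans htK) (Or.inr fun L hL' => by
        rw [h0]
        have h1 : (L.card : ℝ) ≤ m := by
          have h2 : L ⊆ Finset.Ioo 0 m := fun l hl => by
            rw [Finset.mem_Ioo]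
            exact ⟨(hL' l hl).1, (hL' l hl).2.1⟩
          have h3 := Finset.card_le_card h2
          rw [Nat.card_Ioo] at h3
          have h4 : L.card ≤ m := by omega
          exact_mod_cast h4
        calc (L.card : ℝ) * (√‖u'‖) ^ k ≤ (m : ℝ) * (√‖u'‖) ^ k :=
              mul_le_mul_of_nonneg_right h1 (by positivity)
          _ ≤ c := hfa.trans (min_le_left _ _))
    exact ⟨w, m, u', U, hw, hm, hu'.trans hθε, hu'.trans hθr, hU, hUm⟩

end Pool.Agent.H91.TC
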