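import Mathlib

/-! The definitions used in the statement of the closing lemma for diffeomorphisms with a torus
symmetry (problem MP_43af95_an). -/

set_option autoImplicit false

open Set Function Topology Filter
open scoped Manifold

namespace Pool.Agent.H91.TCS

noncomputable section

/-- Euclidean space `ℝ^n`. -/
abbrev E (n : ℕ) := EuclideanSpace ℝ (Fin n)

/-- `M` is a `C²` manifold modelled on `ℝ^n`. -/
def IsMfd (n : ℕ) (M : Type) [TopologicalSpace M] [ChartedSpace (E n) M] : Prop :=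
  IsManifold 𝓘(ℝ, E n) 2 M

/-- `f` is a `C²` map of the manifold `M`. -/
def C2 (n : ℕ) {M : Type} [TopologicalSpace M] [ChartedSpace (E n) M] (f : M → M) : Prop :=
  ContMDiff 𝓘(ℝ, E n) 𝓘(ℝ, E n) 2 f

/-- `f` is a `C²` diffeomorphism of the manifold `M`. -/
def Diff2 (n : ℕ) {M : Type} [TopologicalSpace M] [ChartedSpace (E n) M]
    (f : Equiv.Perm M) : Prop := C2 n f ∧ C2 n f.symm

/-- `x` is recurrent in the sense of the problem file: the orbit map `ℤ → M` is not a homeomorphism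
onto its image. -/
def Recurrent {M : Type} [TopologicalSpace M] (f : Equiv.Perm M) (x : M) : Prop :=
  ¬ IsEmbedding (fun m : ℤ => (f ^ m) x)

/-- `(v, y) ↦ a v y` is an action of the group `ℝ^k` on `M`, of class `C²` in `(v, y)`. -/
structure Action (n k : ℕ) {M : Type} [TopologicalSpace M] [ChartedSpace (E n) M]
    (a : E k → M → M) : Prop where
  smooth : ContMDiff (𝓘(ℝ, E k).prod 𝓘(ℝ, E n)) 𝓘(ℝ, E n) 2 (fun p : E k × M => a p.1 p.2)
  zero : ∀ y, a 0 y = y
  add : ∀ v w y, a (v + w) y = a v (a w y)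

/-- `x` is nonwandering for `f` modulo the action: for every neighbourhood `V` of `x` there are
`m ≥ 1`, `v ∈ ℝ^k` and `y ∈ V` with `a v (f^m(y)) ∈ V`. For `v = 0` these are the nonwandering points
of `f`. -/
def NonWanderingMod {k : ℕ} {M : Type} [TopologicalSpace M] (a : E k → M → M) (f : Equiv.Perm M)
    (x : M) : Prop :=
  ∀ V ∈ 𝓝 x, ∃ (m : ℕ) (v : E k), 1 ≤ m ∧ ∃ y ∈ V, a v ((f ^ m) y) ∈ V

/-- The vector `v` of `ℝ^k` has integer coordinates. -/
def IsInt {k : ℕ} (v : E k) : Prop := ∀ i, ∃ p : ℤ, v i = (p : ℝ)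

/-- Near `x` the action is a free action of the torus `ℝ^k / ℤ^k`: the lattice `ℤ^k` acts trivially
on a neighbourhood of `x`, and it is the stabiliser of `x`. -/
def TorusAt {k : ℕ} {M : Type} [TopologicalSpace M] (a : E k → M → M) (x : M) : Prop :=
  (∃ V ∈ 𝓝 x, ∀ y ∈ V, ∀ z, IsInt z → a z y = y) ∧ ∀ v, a v x = x → IsInt v

/-- Local charts of `M` with values in `ℝ^n`. -/
abbrev Chart (n : ℕ) (M : Type) [TopologicalSpace M] := OpenPartialHomeomorph M (E n)

/-- The chart belongs to the maximal `C²` atlas of `M`. -/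
def IsC2Chart (n : ℕ) {M : Type} [TopologicalSpace M] [ChartedSpace (E n) M]
    (φ : Chart n M) : Prop := φ ∈ IsManifold.maximalAtlas 𝓘(ℝ, E n) 2 M

/-- For every `c > 0` there are `m ≥ 1` and a point of the `ℝ^k`-orbit of `f^m(x)` at distance `D`
of `x` (in some chart) with `m D^(k/2) ≤ c`. -/
def FastReturns (n k : ℕ) {M : Type} [TopologicalSpace M] [ChartedSpace (E n) M]
    (a : E k → M → M) (f : Equiv.Perm M) (x : M) : Prop :=
  ∃ φ : Chart n M, IsC2Chart n φ ∧ x ∈ φ.source ∧ ∀ c : ℝ, 0 < c →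
    ∃ (m : ℕ) (v : E k), 1 ≤ m ∧ a v ((f ^ m) x) ∈ φ.source ∧
      (m : ℝ) * (√‖φ (a v ((f ^ m) x)) - φ x‖) ^ k ≤ c

/-- A test for `f`: two `C²` charts and a compact set of the source of the first one which `f` maps
into the source of the second one. -/
structure Test (n : ℕ) {M : Type} [TopologicalSpace M] [ChartedSpace (E n) M] (f : M → M)
    (φ ψ : Chart n M) (K : Set M) : Prop where
  fst : IsC2Chart n φ
  snd : IsC2Chart n ψ
  compact : IsCompact K
  source : K ⊆ φ.source
  maps : ∀ y ∈ K, f y ∈ ψ.source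

/-- The expression `ψ ∘ f ∘ φ⁻¹` of `f` in the charts `φ`, `ψ`. -/
def rep {n : ℕ} {M : Type} [TopologicalSpace M] (φ ψ : Chart n M) (f : M → M) : E n → E n :=
  fun v => ψ (f (φ.symm v))

/-- The derivative of `F` at `u` in the direction `w`. -/
def der {n : ℕ} (F : E n → E n) (u w : E n) : E n := fderiv ℝ F u w

/-- The second derivative of `F` at `u` in the directions `w`, `w'`. -/
def der2 {n : ℕ} (F : E n → E n) (u w w' : E n) : E n := fderiv ℝ (fderiv ℝ F) u w w'

/-- `g` is `η`-close to `f` in the `C²` sense on the test `(φ, ψ, K)`: `g` maps `K` into the source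
of `ψ`, and on `K`, in the charts `φ` and `ψ`, the difference of `g` and `f` and its first and second
derivatives are bounded by `η`. -/
structure Close2 (n : ℕ) {M : Type} [TopologicalSpace M] (η : ℝ) (f g : M → M)
    (φ ψ : Chart n M) (K : Set M) : Prop where
  maps : ∀ y ∈ K, g y ∈ ψ.source
  zero : ∀ y ∈ K, ‖ψ (g y) - ψ (f y)‖ ≤ η
  one : ∀ u ∈ φ '' K, ∀ w, ‖der (rep φ ψ g) u w - der (rep φ ψ f) u w‖ ≤ η * ‖w‖
  two : ∀ u ∈ φ '' K, ∀ w w',
    ‖der2 (rep φ ψ g) u w w' - der2 (rep φ ψ f) u w w'‖ ≤ η * ‖w‖ * ‖w'‖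

end

end Pool.Agent.H91.TCS
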