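import Pool.Agent.H91.TC.Defs

/-! Closing lemma for diffeomorphisms with a torus symmetry: the targets. -/

open Set Function Topology Metric Filter
open scoped Manifold

namespace Pool.Agent.H91.TC

open Pool.Agent.H88.CL Pool.Agent.H88.CM

noncomputable section

/-! ### arithmetic: the choice of the translation -/

/-- one coordinate: the number of integers `z` in an interval of length `A` for which `c + l z / m`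
is within `R` of an integer -/
def T_NTA : Prop := ∀ (m l A b : ℕ) (c R : ℝ) (z0 : ℤ), 1 ≤ m → 0 ≤ R → m = b * Nat.gcd l m →
  ∀ Z : Finset ℤ, (∀ z ∈ Z, z0 ≤ z ∧ z < z0 + A ∧ ∃ t : ℤ, |c + l * z / m - t| ≤ R) →
  (Z.card : ℝ) ≤ ((A : ℝ) / b + 1) * (2 * R * b + 1)

/-- the sum over the denominators -/
def T_NTB : Prop := ∀ (m k : ℕ), 1 ≤ m → 3 ≤ k →
  ∑ l ∈ Finset.Ioo 0 m, (5 / 4 * (Nat.gcd l m : ℝ) / m) ^ k ≤ 125 / 128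

/-- choice of the translation -/
def T_NT : Prop := ∀ k : ℕ, 3 ≤ k → ∀ η : ℝ, 0 < η → ∃ (c : ℝ) (m0 : ℕ), 0 < c ∧ ∀ m : ℕ, m0 ≤ m →
  ∀ (R : ℝ) (L : Finset ℕ), 0 ≤ R → (∀ l ∈ L, 0 < l ∧ l < m) → (L.card : ℝ) * R ^ k ≤ c →
  ∀ S : ℕ → E k, ∃ w : E k, ‖w‖ ≤ η ∧ (m : ℝ) • w + S m ∈ Lat k ∧
    ∀ l ∈ L, ∀ z ∈ Lat k, R < ‖(l : ℝ) • w + S l - z‖

/-! ### selection of the pair -/

/-- pigeonhole in `ℝ^d` -/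
def T_PIG : Prop := ∀ d : ℕ, ∃ C : ℝ, 1 ≤ C ∧ ∀ (L : Finset ℕ) (p : ℕ → E d) (c : E d) (R s : ℝ),
  0 < s → s ≤ R → (∀ l ∈ L, ‖p l - c‖ ≤ R) → (C * R / s) ^ d < L.card →
  ∃ l ∈ L, ∃ l' ∈ L, l < l' ∧ ‖p l - p l'‖ ≤ s

/-- selection of a pair with few near returns -/
def T_SEL : Prop := ∀ d k : ℕ, d < k → ∀ B c : ℝ, 0 < B → 0 < c → ∃ δ0 : ℝ, 0 < δ0 ∧
  ∀ P : ℕ → E d → E d → Prop,
  (∀ l m u u1 u2, P l u u1 → P m u u2 → l < m → P (m - l) u1 u2) →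
  ∀ (m : ℕ) (u u' : E d), 1 ≤ m → P m u u' → ‖u - u'‖ ≤ δ0 →
  ∃ (m1 : ℕ) (u1 u1' : E d), 1 ≤ m1 ∧ P m1 u1 u1' ∧ ‖u1 - u‖ ≤ 4 * B * √‖u - u'‖ ∧
    ‖u1 - u1'‖ ≤ ‖u - u'‖ ∧ (u1 = u1' ∨ ∀ L : Finset ℕ, (∀ l ∈ L, 0 < l ∧ l < m1 ∧
      ∃ u'', P l u1 u'' ∧ ‖u'' - u1‖ ≤ B * √‖u1 - u1'‖) → (L.card : ℝ) * (√‖u1 - u1'‖) ^ k ≤ c)

/-! ### the action near `x` -/

/-- the action in a chart: a `C²` chart in which it is a translation -/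
def T_TUA : Prop := ∀ (n k : ℕ) (M : Type) [TopologicalSpace M] [T2Space M]
  [ChartedSpace (E n) M] [IsManifold 𝓘(ℝ, E n) 2 M] (a : E k → M → M) (x : M), Act n k a →
  (∀ v, a v x = x → v ∈ Lat k) →
  ∃ (d : ℕ) (κ : Ch n M) (e : E n ≃L[ℝ] E d × E k) (r : ℝ), n = d + k ∧ κ ∈ MA n M ∧
    x ∈ κ.source ∧ e (κ x) = 0 ∧ 0 < r ∧
    (∀ (u : E d) (v : E k), ‖u‖ ≤ r → ‖v‖ ≤ r → e.symm (u, v) ∈ κ.target) ∧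
    ∀ (u : E d) (v : E k), ‖u‖ ≤ r → ‖v‖ ≤ r → κ.symm (e.symm (u, v)) = a v (sg κ e u)

/-- the tube -/
def T_TUB : Prop := ∀ (n d k : ℕ) (M : Type) [TopologicalSpace M] [T2Space M]
  [ChartedSpace (E n) M] [IsManifold 𝓘(ℝ, E n) 2 M] (a : E k → M → M) (x : M), Act n k a →
  (∃ V ∈ 𝓝 x, ∀ y ∈ V, ∀ z ∈ Lat k, a z y = y) → (∀ v, a v x = x → v ∈ Lat k) →
  ∀ (κ : Ch n M) (e : E n ≃L[ℝ] E d × E k) (r : ℝ), κ ∈ MA n M → x ∈ κ.source → e (κ x) = 0 →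
    0 < r → (∀ (u : E d) (v : E k), ‖u‖ ≤ r → ‖v‖ ≤ r → e.symm (u, v) ∈ κ.target) →
    (∀ (u : E d) (v : E k), ‖u‖ ≤ r → ‖v‖ ≤ r → κ.symm (e.symm (u, v)) = a v (sg κ e u)) →
    ∃ r' : ℝ, Tube n d k a x κ e r'

/-- a nonwandering point gives returns -/
def T_NWR : Prop := ∀ (n d k : ℕ) (M : Type) [TopologicalSpace M] [T2Space M]
  [ChartedSpace (E n) M] [IsManifold 𝓘(ℝ, E n) 2 M] (a : E k → M → M) (x : M) (κ : Ch n M)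
  (e : E n ≃L[ℝ] E d × E k) (r : ℝ) (f : M → M), Act n k a → Tube n d k a x κ e r →
  (∀ v y, f (a v y) = a v (f y)) → NWM f x → ∀ ε : ℝ, 0 < ε → ε ≤ r →
  ∃ (m : ℕ) (u u' : E d), 1 ≤ m ∧ Ret f a κ e r m u u' ∧ ‖u‖ ≤ ε ∧ ‖u'‖ ≤ ε

/-- if the orbit of `x` in `M / ℝ^k` is not periodic, then close returns are late -/
def T_LAT : Prop := ∀ (n d k : ℕ) (M : Type) [TopologicalSpace M] [T2Space M]
  [ChartedSpace (E n) M] [IsManifold 𝓘(ℝ, E n) 2 M] (a : E k → M → M) (x : M) (κ : Ch n M)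
  (e : E n ≃L[ℝ] E d × E k) (r : ℝ) (f : M → M), Act n k a → Tube n d k a x κ e r →
  Continuous f → (∀ (m : ℕ) (v : E k), 1 ≤ m → f^[m] x ≠ a v x) →
  ∀ m0 : ℕ, ∃ ε : ℝ, 0 < ε ∧ ∀ (m : ℕ) (u u' : E d), 1 ≤ m → Ret f a κ e r m u u' → ‖u‖ ≤ ε →
    ‖u'‖ ≤ ε → m0 ≤ m

/-- the closing of a good pair by a translation and one bump -/
def T_ONE : Prop := ∀ (n d k : ℕ) (M : Type) [TopologicalSpace M] [T2Space M]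
  [ChartedSpace (E n) M] [IsManifold 𝓘(ℝ, E n) 2 M] (a : E k → M → M) (x : M) (κ : Ch n M)
  (e : E n ≃L[ℝ] E d × E k) (r : ℝ), Act n k a → Tube n d k a x κ e r →
  ∀ ρ0 : ℝ, 0 < ρ0 → closedBall (κ x) ρ0 ⊆ κ.target → ∀ ε : ℝ, 0 < ε →
  ∃ K ε1 : ℝ, 0 < K ∧ 0 < ε1 ∧ ∀ f : M → M, (∀ v y, f (a v y) = a v (f y)) →
  ∀ (m : ℕ) (u u' : E d) (w : E k), 1 ≤ m → ‖u‖ ≤ ε1 → ‖u'‖ ≤ ε1 → u ≠ u' →
    f^[m] (sg κ e u) = a (-((m : ℝ) • w)) (sg κ e u') →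
    (∀ l : ℕ, 0 < l → l < m → ∀ (u'' : E d) (v : E k), ‖u''‖ ≤ r →
      ‖u'' - u'‖ ≤ K * √‖u - u'‖ → ‖v‖ ≤ K * √‖u - u'‖ →
      f^[l] (sg κ e u) ≠ a (v - (l : ℝ) • w) (sg κ e u'')) →
    ∃ U : E n → E n, Bp n (closedBall (κ x) ρ0) ε ε ε U ∧
      (a w ∘ f ∘ bmp κ U)^[m] (sg κ e u') = sg κ e u'

/-- the closing of the orbit of a point of the slice near `x` -/
def T_GOOD : Prop := ∀ (n d k : ℕ) (M : Type) [TopologicalSpace M] [T2Space M]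
  [ChartedSpace (E n) M] [IsManifold 𝓘(ℝ, E n) 2 M] (a : E k → M → M) (x : M) (κ : Ch n M)
  (e : E n ≃L[ℝ] E d × E k) (r : ℝ) (f : M → M), Act n k a → Tube n d k a x κ e r → 3 ≤ k →
  Continuous f → (∀ v y, f (a v y) = a v (f y)) →
  (∀ (m : ℕ) (v : E k), 1 ≤ m → f^[m] x ≠ a v x) →
  ((d < k ∧ NWM f x) ∨ ∀ c : ℝ, 0 < c → ∃ (m : ℕ) (u' : E d), 1 ≤ m ∧ Ret f a κ e r m 0 u' ∧
    (m : ℝ) * (√‖u'‖) ^ k ≤ c) →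
  ∀ ρ0 : ℝ, 0 < ρ0 → closedBall (κ x) ρ0 ⊆ κ.target → ∀ ε : ℝ, 0 < ε →
  ∃ (w : E k) (m : ℕ) (u' : E d) (U : E n → E n), ‖w‖ ≤ ε ∧ 1 ≤ m ∧ ‖u'‖ ≤ ε ∧ ‖u'‖ ≤ r ∧
    Bp n (closedBall (κ x) ρ0) ε ε ε U ∧ (a w ∘ f ∘ bmp κ U)^[m] (sg κ e u') = sg κ e u'

/-- the case of a periodic orbit of `M / ℝ^k` -/
def T_PER : Prop := ∀ (n k : ℕ) (M : Type) [TopologicalSpace M] [ChartedSpace (E n) M]
  (a : E k → M → M) (x : M) (f : M → M), Act n k a → (∀ z ∈ Lat k, a z x = x) →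
  (∀ v y, f (a v y) = a v (f y)) → (∃ (m : ℕ) (v : E k), 1 ≤ m ∧ f^[m] x = a v x) →
  ∀ ε : ℝ, 0 < ε → ∃ (w : E k) (m : ℕ), ‖w‖ ≤ ε ∧ 1 ≤ m ∧ (a w ∘ f)^[m] x = x

/-- close returns of `x`, seen in any chart, give close returns in the tube -/
def T_FAS : Prop := ∀ (n d k : ℕ) (M : Type) [TopologicalSpace M] [T2Space M]
  [ChartedSpace (E n) M] [IsManifold 𝓘(ℝ, E n) 2 M] (a : E k → M → M) (x : M) (κ : Ch n M)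
  (e : E n ≃L[ℝ] E d × E k) (r : ℝ) (f : M → M), Act n k a → Tube n d k a x κ e r → 1 ≤ k →
  ∀ φ : Ch n M, φ ∈ MA n M → x ∈ φ.source →
  (∀ c : ℝ, 0 < c → ∃ (m : ℕ) (v : E k), 1 ≤ m ∧ a v (f^[m] x) ∈ φ.source ∧
    (m : ℝ) * (√‖φ (a v (f^[m] x)) - φ x‖) ^ k ≤ c) →
  ∀ c : ℝ, 0 < c → ∃ (m : ℕ) (u' : E d), 1 ≤ m ∧ Ret f a κ e r m 0 u' ∧
    (m : ℝ) * (√‖u'‖) ^ k ≤ c

/-! ### convergence in the `C²` topology -/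

/-- composition -/
def T_CVC : Prop := ∀ (n : ℕ) (M : Type) [TopologicalSpace M] [T2Space M]
  [ChartedSpace (E n) M] [IsManifold 𝓘(ℝ, E n) 2 M] (g g' : ℕ → M → M) (f f' : M → M),
  (∀ i, ContMDiff 𝓘(ℝ, E n) 𝓘(ℝ, E n) 2 (g i)) →
  (∀ i, ContMDiff 𝓘(ℝ, E n) 𝓘(ℝ, E n) 2 (g' i)) →
  ContMDiff 𝓘(ℝ, E n) 𝓘(ℝ, E n) 2 f → ContMDiff 𝓘(ℝ, E n) 𝓘(ℝ, E n) 2 f' →
  Cv n g f → Cv n g' f' → Cv n (fun i => g' i ∘ g i) (f' ∘ f)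

/-- constant sequences -/
def T_CVF : Prop := ∀ (n : ℕ) (M : Type) [TopologicalSpace M] [T2Space M]
  [ChartedSpace (E n) M] [IsManifold 𝓘(ℝ, E n) 2 M] (f : M → M),
  ContMDiff 𝓘(ℝ, E n) 𝓘(ℝ, E n) 2 f → Cv n (fun _ => f) f

/-- small bumps -/
def T_CVB : Prop := ∀ (n : ℕ) (M : Type) [TopologicalSpace M] [T2Space M]
  [ChartedSpace (E n) M] [IsManifold 𝓘(ℝ, E n) 2 M] (κ : Ch n M) (K : Set (E n)), κ ∈ MA n M →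
  IsCompact K → K ⊆ κ.target → ∀ (U : ℕ → E n → E n) (t : ℕ → ℝ), (∀ i, t i ≤ 1 / 2) →
  Tendsto t atTop (𝓝 0) → (∀ i, Bp n K (t i) (t i) (t i) (U i)) →
  (∀ i, ContMDiff 𝓘(ℝ, E n) 𝓘(ℝ, E n) 2 (bmp κ (U i))) ∧ Cv n (fun i => bmp κ (U i)) id

/-- small elements of the group -/
def T_CVA : Prop := ∀ (n k : ℕ) (M : Type) [TopologicalSpace M] [T2Space M]
  [ChartedSpace (E n) M] [IsManifold 𝓘(ℝ, E n) 2 M] (a : E k → M → M), Act n k a →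
  ∀ w : ℕ → E k, Tendsto w atTop (𝓝 0) →
  (∀ i, ContMDiff 𝓘(ℝ, E n) 𝓘(ℝ, E n) 2 (a (w i))) ∧ Cv n (fun i => a (w i)) id

/-- convergence and closeness on a test -/
def T_CVT : Prop := ∀ (n : ℕ) (M : Type) [TopologicalSpace M] [T2Space M]
  [ChartedSpace (E n) M] [IsManifold 𝓘(ℝ, E n) 2 M] (g : ℕ → M → M) (f : M → M),
  ContMDiff 𝓘(ℝ, E n) 𝓘(ℝ, E n) 2 f → Cv n g f → ∀ (φ ψ : Ch n M) (K : Set M),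
  Test n f φ ψ K → ∀ η : ℝ, 0 < η → ∀ᶠ i in atTop, Cls2T n η f (g i) φ ψ K

/-- all small perturbations used are `C²`-close -/
def T_CLA : Prop := ∀ (n k : ℕ) (M : Type) [TopologicalSpace M] [T2Space M]
  [ChartedSpace (E n) M] [IsManifold 𝓘(ℝ, E n) 2 M] (a : E k → M → M) (f f' : M → M) (κ : Ch n M)
  (K : Set (E n)), Act n k a → DM n f f' → κ ∈ MA n M → IsCompact K → K ⊆ κ.target →
  ∀ (φ ψ : Ch n M) (Q : Set M), Test n f φ ψ Q → ∀ η : ℝ, 0 < η →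
  ∃ t : ℝ, 0 < t ∧ t ≤ 1 / 2 ∧ ∀ (w : E k) (U V V' : E n → E n), ‖w‖ ≤ t → Bp n K t t t U →
    Bp n K t t t V → Bp n K t t t V' →
    Cls2T n η f (bmp κ V' ∘ (a w ∘ f ∘ bmp κ U) ∘ bmp κ V) φ ψ Q

/-! ### the theorem -/

/-- the closing lemma -/
def T_MAIN : Prop := ∀ (n k : ℕ) (M : Type) [TopologicalSpace M] [T2Space M] [CompactSpace M]
  [ChartedSpace (E n) M] [IsManifold 𝓘(ℝ, E n) 2 M] (a : E k → M → M) (f f' : M → M) (x : M),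
  Act n k a → DM n f f' → 3 ≤ k → (∀ v y, f (a v y) = a v (f y)) →
  (∃ V ∈ 𝓝 x, ∀ y ∈ V, ∀ z ∈ Lat k, a z y = y) → (∀ v, a v x = x → v ∈ Lat k) →
  ((n < 2 * k ∧ NWM f x) ∨ ∃ φ : Ch n M, φ ∈ MA n M ∧ x ∈ φ.source ∧
    ∀ c : ℝ, 0 < c → ∃ (m : ℕ) (v : E k), 1 ≤ m ∧ a v (f^[m] x) ∈ φ.source ∧
    (m : ℝ) * (√‖φ (a v (f^[m] x)) - φ x‖) ^ k ≤ c) →
  ∀ (nt : ℕ) (φ ψ : Fin nt → Ch n M) (Q : Fin nt → Set M), (∀ i, Test n f (φ i) (ψ i) (Q i)) →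
  ∀ η : ℝ, 0 < η → ∃ (g g' : M → M) (m : ℕ), DM n g g' ∧ 1 ≤ m ∧ g^[m] x = x ∧
    ∀ i, Cls2T n η f g (φ i) (ψ i) (Q i)

end

end Pool.Agent.H91.TC
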